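import Mathlib

/-!
# Populations with two error sizes: arbitrarily far from optimal for every `n ≥ 2`

For every number `n ≥ 2` of draws and every `K` there are `m` and `c < m` and a population with three
error sizes for which `P(S ≤ c)` is more than `K` times as large as for every population of the same
mean error with at most two error sizes.  For `n = 1` the assertion of the question holds exactly
when `c < 0` or `(1 - m) / (1 - c)` is rational.
-/

set_option autoImplicit false

open Finset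

namespace Pool.Agent.Results.MP_c8004b_pr.AnyFactor

/-- A population of mean error `m`: a finite nonempty list of items (indexed by `ι`) with error
sizes `e i ∈ [0, 1]`, the average of which is `m`. -/
def IsPop {ι : Type} [Fintype ι] (m : ℝ) (e : ι → ℝ) : Prop :=
  Nonempty ι ∧ (∀ i, 0 ≤ e i ∧ e i ≤ 1) ∧ (∑ i, e i) / Fintype.card ι = m

/-- `P(S ≤ c)`, where `S` is the sum of the error sizes of `n` items which are drawn independently
and uniformly (with replacement). -/
noncomputable def F {ι : Type} [Fintype ι] (n : ℕ) (c : ℝ) (e : ι → ℝ) : ℝ :=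
  ({i : Fin n → ι | ∑ j, e (i j) ≤ c}.ncard : ℝ) / (Fintype.card ι : ℝ) ^ n

/-- The assertion of Q1 for given `n`, `m` and `c`: some population of mean error `m` with exactly
two error sizes, one of them `0` or `1`, maximises `P(S ≤ c)` among all populations of mean
error `m`. -/
def Holds (n : ℕ) (m c : ℝ) : Prop :=
  ∃ (ι : Type) (_ : Fintype ι) (e : ι → ℝ), IsPop m e ∧ (Set.range e).ncard = 2 ∧
    (0 ∈ Set.range e ∨ 1 ∈ Set.range e) ∧
    ∀ (κ : Type) (_ : Fintype κ) (e' : κ → ℝ), IsPop m e' → F n c e' ≤ F n c e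

theorem IsPop.sum {ι : Type} [Fintype ι] {m : ℝ} {e : ι → ℝ} (h : IsPop m e) :
    ∑ i, e i = m * Fintype.card ι := by
  obtain ⟨hne, -, h⟩ := h
  have : (0 : ℝ) < Fintype.card ι := by exact_mod_cast Fintype.card_pos
  rw [div_eq_iff this.ne'] at h
  exact h

theorem IsPop.deficit {ι : Type} [Fintype ι] {m : ℝ} {e : ι → ℝ} (h : IsPop m e) :
    ∑ i, (1 - e i) = (1 - m) * Fintype.card ι := by
  rw [Finset.sum_sub_distrib, h.sum]
  simp
  ring

/-- an item with error size at least the mean -/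
theorem IsPop.exists_ge {ι : Type} [Fintype ι] {m : ℝ} {e : ι → ℝ} (h : IsPop m e) :
    ∃ i, m ≤ e i := by
  by_contra hcon
  push Not at hcon
  have h1 := h.sum
  obtain ⟨i₀⟩ := h.1
  have h2 : ∑ i, e i < ∑ _i : ι, m :=
    Finset.sum_lt_sum_of_nonempty ⟨i₀, Finset.mem_univ _⟩ fun i _ => hcon i
  rw [h1, Finset.sum_const, Finset.card_univ, nsmul_eq_mul] at h2
  linarith

/-- the bound for populations with at most two error sizes -/
theorem two_sizes {ι : Type} [Fintype ι] {k D : ℕ} (hk : 1 ≤ k) (hD : 3 ≤ D) {e : ι → ℝ}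
    (h : IsPop (1 - 1 / D) e) (h2 : (Set.range e).ncard ≤ 2) :
    F (k + 1) (1 - 2 / D) e ≤ ((k + 1) / (k * D)) ^ (k + 1) := by
  classical
  have hD0 : (3 : ℝ) ≤ D := by exact_mod_cast hD
  have hk0 : (1 : ℝ) ≤ k := by exact_mod_cast hk
  have hinv : (1 : ℝ) / D ≤ 1 / 3 := one_div_le_one_div_of_le (by norm_num) hD0
  have hinv0 : (0 : ℝ) < 1 / D := by positivity
  have e2 : (2 : ℝ) / D = 2 * (1 / D) := by ring
  obtain ⟨i₁, hi₁⟩ := h.exists_ge
  obtain ⟨x, hx⟩ : ∃ x, ∀ i, e i = x ∨ e i = e i₁ := by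
    by_cases hex : ∃ i, e i ≠ e i₁
    · obtain ⟨i₂, hi₂⟩ := hex
      refine ⟨e i₂, fun i => ?_⟩
      by_contra hcon
      push Not at hcon
      have h3 : ({e i, e i₂, e i₁} : Finset ℝ).card ≤ 2 := by
        have h4 : ((({e i, e i₂, e i₁} : Finset ℝ)) : Set ℝ) ⊆ Set.range e := by
          intro y hy
          simp only [Finset.coe_insert, Finset.coe_singleton, Set.mem_insert_iff,
            Set.mem_singleton_iff] at hy
          rcases hy with rfl | rfl | rfl
          · exact ⟨i, rfl⟩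
          · exact ⟨i₂, rfl⟩
          · exact ⟨i₁, rfl⟩
        have := Set.ncard_le_ncard h4 (Set.finite_range e)
        rw [Set.ncard_coe_finset] at this
        omega
      rw [Finset.card_eq_three.2 ⟨_, _, _, hcon.1, hcon.2, hi₂, rfl⟩] at h3
      omega
    · push Not at hex
      exact ⟨e i₁, fun i => Or.inl (hex i)⟩
  have hN : (0 : ℝ) < Fintype.card ι := by
    have := h.1
    exact_mod_cast Fintype.card_pos
  unfold F
  set A : Finset ι := Finset.univ.filter fun i => e i ≠ e i₁ with hA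
  have hsub : {i : Fin (k + 1) → ι | ∑ j, e (i j) ≤ 1 - 2 / D} ⊆
      ((Fintype.piFinset fun _ => A : Finset (Fin (k + 1) → ι)) : Set (Fin (k + 1) → ι)) := by
    intro i hi
    rw [Finset.mem_coe, Fintype.mem_piFinset]
    intro j
    rw [hA, Finset.mem_filter]
    refine ⟨Finset.mem_univ _, fun hij => ?_⟩
    have h5 : e (i j) ≤ ∑ j, e (i j) :=
      Finset.single_le_sum (fun l _ => (h.2.1 (i l)).1) (Finset.mem_univ j)
    have h6 : ∑ j, e (i j) ≤ 1 - 2 / D := hi
    rw [hij] at h5
    linarith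
  have hcard : ({i : Fin (k + 1) → ι | ∑ j, e (i j) ≤ 1 - 2 / D}.ncard : ℝ) ≤
      (A.card : ℝ) ^ (k + 1) := by
    have h7 := Set.ncard_le_ncard hsub (Finset.finite_toSet _)
    rw [Set.ncard_coe_finset, Fintype.card_piFinset, Finset.prod_const, Finset.card_univ,
      Fintype.card_fin] at h7
    exact_mod_cast h7
  by_cases hxc : x * (k + 1) ≤ 1 - 2 / D
  · have h8 : (A.card : ℝ) * (k / (k + 1)) ≤ 1 / D * Fintype.card ι := by
      have h9 : ∑ i ∈ A, ((k : ℝ) / (k + 1)) ≤ ∑ i ∈ A, (1 - e i) := by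
        refine Finset.sum_le_sum fun i hi => ?_
        have h10 : e i = x := by
          rcases hx i with h | h
          · exact h
          · exact absurd h (Finset.mem_filter.1 hi).2
        rw [h10, div_le_iff₀ (by linarith)]
        nlinarith
      have h11 : ∑ i ∈ A, (1 - e i) ≤ ∑ i, (1 - e i) :=
        Finset.sum_le_sum_of_subset_of_nonneg (Finset.filter_subset _ _)
          fun i _ _ => by have := (h.2.1 i).2; linarith
      rw [Finset.sum_const, nsmul_eq_mul] at h9
      rw [h.deficit] at h11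
      linarith
    have h12 : (A.card : ℝ) / Fintype.card ι ≤ (k + 1) / (k * D) := by
      rw [div_le_div_iff₀ hN (by positivity)]
      have h13 : (A.card : ℝ) * (k / (k + 1)) * ((k + 1) * D) ≤
          1 / D * Fintype.card ι * ((k + 1) * D) :=
        mul_le_mul_of_nonneg_right h8 (by positivity)
      have h14 : (A.card : ℝ) * (k / (k + 1)) * ((k + 1) * D) = A.card * (k * D) := by
        field_simp
      have h15 : (1 : ℝ) / D * Fintype.card ι * ((k + 1) * D) = (k + 1) * Fintype.card ι := by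
        field_simp
      linarith
    calc ({i : Fin (k + 1) → ι | ∑ j, e (i j) ≤ 1 - 2 / D}.ncard : ℝ) /
          (Fintype.card ι : ℝ) ^ (k + 1) ≤ (A.card : ℝ) ^ (k + 1) / (Fintype.card ι : ℝ) ^ (k + 1) :=
        div_le_div_of_nonneg_right hcard (by positivity)
      _ = ((A.card : ℝ) / Fintype.card ι) ^ (k + 1) := by rw [div_pow]
      _ ≤ _ := pow_le_pow_left₀ (by positivity) h12 _
  · have hempty : {i : Fin (k + 1) → ι | ∑ j, e (i j) ≤ 1 - 2 / D} = ∅ := by
      ext i
      simp only [Set.mem_ofPred_eq, Set.mem_empty_iff_false, iff_false, not_le]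
      push Not at hxc
      by_cases hall : ∀ j, e (i j) = x
      · rw [Finset.sum_congr rfl fun j _ => hall j, Finset.sum_const, Finset.card_univ,
          Fintype.card_fin, nsmul_eq_mul]
        push_cast
        linarith
      · push Not at hall
        obtain ⟨j, hj⟩ := hall
        have h5 : e (i j) ≤ ∑ j, e (i j) :=
          Finset.single_le_sum (fun l _ => (h.2.1 (i l)).1) (Finset.mem_univ j)
        rcases hx (i j) with h' | h'
        · exact absurd h' hj
        · rw [h'] at h5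
          linarith
    rw [hempty, Set.ncard_empty]
    simp only [Nat.cast_zero, zero_div]
    positivity

/-- the population with three error sizes -/
noncomputable def e₀ (k D : ℕ) : Fin (2 * k) ⊕ (Fin D ⊕ Fin (2 * (k + 1) * D - 2 * k - D)) → ℝ :=
  Sum.elim (fun _ => 0) (Sum.elim (fun _ => 1 - 2 / D) (fun _ => 1))

theorem card₀ {k D : ℕ} (_hk : 1 ≤ k) (hD : 3 ≤ D) :
    Fintype.card (Fin (2 * k) ⊕ (Fin D ⊕ Fin (2 * (k + 1) * D - 2 * k - D))) =
      2 * (k + 1) * D := by
  rw [Fintype.card_sum, Fintype.card_sum, Fintype.card_fin, Fintype.card_fin, Fintype.card_fin]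
  have : 2 * k + D ≤ 2 * (k + 1) * D := by nlinarith
  omega

theorem pop₀ {k D : ℕ} (hk : 1 ≤ k) (hD : 3 ≤ D) : IsPop (1 - 1 / D) (e₀ k D) := by
  have hD0 : (3 : ℝ) ≤ D := by exact_mod_cast hD
  have hinv : (1 : ℝ) / D ≤ 1 / 3 := one_div_le_one_div_of_le (by norm_num) hD0
  have hinv0 : (0 : ℝ) < 1 / D := by positivity
  have e2 : (2 : ℝ) / D = 2 * (1 / D) := by ring
  refine ⟨⟨Sum.inl ⟨0, by omega⟩⟩, ?_, ?_⟩
  · rintro (i | i | i)
    · exact ⟨le_rfl, zero_le_one⟩
    · show 0 ≤ 1 - (2 : ℝ) / D ∧ 1 - (2 : ℝ) / D ≤ 1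
      constructor <;> linarith
    · exact ⟨zero_le_one, le_rfl⟩
  · rw [card₀ hk hD]
    unfold e₀
    rw [Fintype.sum_sum_type, Fintype.sum_sum_type]
    simp only [Sum.elim_inl, Sum.elim_inr, Finset.sum_const, Finset.card_univ, Fintype.card_fin,
      nsmul_eq_mul]
    have h1 : ((2 * (k + 1) * D - 2 * k - D : ℕ) : ℝ) = 2 * (k + 1) * D - 2 * k - D := by
      have h2 : 2 * k + D ≤ 2 * (k + 1) * D := by nlinarith
      rw [Nat.cast_sub (by omega), Nat.cast_sub (by omega)]
      push_cast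
      ring
    rw [h1]
    push_cast
    have hk1 : (0 : ℝ) < k + 1 := by positivity
    have hDp : (0 : ℝ) < D := by linarith
    field_simp
    ring

theorem F₀ {k D : ℕ} (hk : 1 ≤ k) (hD : 3 ≤ D) :
    (D : ℝ) * (2 * k) ^ k / (2 * (k + 1) * D) ^ (k + 1) ≤ F (k + 1) (1 - 2 / D) (e₀ k D) := by
  unfold F
  rw [card₀ hk hD]
  push_cast
  refine div_le_div_of_nonneg_right ?_ (by positivity)
  let φ : Fin D × (Fin k → Fin (2 * k)) →
      (Fin (k + 1) → Fin (2 * k) ⊕ (Fin D ⊕ Fin (2 * (k + 1) * D - 2 * k - D))) :=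
    fun p => Fin.cons (Sum.inr (Sum.inl p.1)) (fun j => Sum.inl (p.2 j))
  have hφ : Function.Injective φ := by
    rintro ⟨d, z⟩ ⟨d', z'⟩ h
    have h0 := congrFun h 0
    have h1 := fun j : Fin k => congrFun h j.succ
    simp only [φ, Fin.cons_zero, Fin.cons_succ] at h0 h1
    have h2 : d = d' := by simpa using h0
    have h3 : z = z' := funext fun j => by simpa using h1 j
    rw [h2, h3]
  have hsub : Set.range φ ⊆ {i | ∑ j, e₀ k D (i j) ≤ 1 - 2 / D} := by
    rintro _ ⟨⟨d, z⟩, rfl⟩
    show ∑ j, e₀ k D (φ (d, z) j) ≤ 1 - 2 / D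
    rw [Fin.sum_univ_succ]
    simp only [φ, Fin.cons_zero, Fin.cons_succ]
    simp [e₀]
  have h4 := Set.ncard_le_ncard hsub (Set.toFinite _)
  rw [← Set.image_univ, Set.ncard_image_of_injective _ hφ, Set.ncard_univ,
    Nat.card_eq_fintype_card, Fintype.card_prod, Fintype.card_fun, Fintype.card_fin,
    Fintype.card_fin, Fintype.card_fin] at h4
  exact_mod_cast h4

theorem any_factor {n : ℕ} (hn : 2 ≤ n) (K : ℝ) : ∃ m c : ℝ, 0 < c ∧ c < m ∧ m < 1 ∧
    ∃ (ι : Type) (_ : Fintype ι) (e : ι → ℝ), IsPop m e ∧ (Set.range e).ncard ≤ 3 ∧ 0 < F n c e ∧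
      ∀ (κ : Type) (_ : Fintype κ) (e' : κ → ℝ), IsPop m e' → (Set.range e').ncard ≤ 2 →
        K * F n c e' < F n c e := by
  obtain ⟨k, rfl⟩ : ∃ k, n = k + 1 := ⟨n - 1, by omega⟩
  have hk : 1 ≤ k := by omega
  have hk0 : (0 : ℝ) < k := by exact_mod_cast hk
  obtain ⟨κ, hκ⟩ : ∃ κ : ℝ, κ = (2 * k : ℝ) ^ k * k ^ (k + 1) / (2 * (k + 1) ^ 2 : ℝ) ^ (k + 1) :=
    ⟨_, rfl⟩
  have hκ0 : 0 < κ := by rw [hκ]; positivity
  obtain ⟨D₁, hD₁⟩ := exists_nat_gt (|K| / κ)
  obtain ⟨D, hD3, hDK⟩ : ∃ D : ℕ, 3 ≤ D ∧ |K| / κ < D :=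
    ⟨D₁ + 3, by omega, by push_cast; linarith⟩
  rw [div_lt_iff₀ hκ0] at hDK
  have hD0 : (3 : ℝ) ≤ D := by exact_mod_cast hD3
  have hinv : (1 : ℝ) / D ≤ 1 / 3 := one_div_le_one_div_of_le (by norm_num) hD0
  have hinv0 : (0 : ℝ) < 1 / D := by positivity
  have e2 : (2 : ℝ) / D = 2 * (1 / D) := by ring
  have hDp : (0 : ℝ) < D := by linarith
  obtain ⟨U, hU⟩ : ∃ U : ℝ, U = ((k + 1) / (k * D) : ℝ) ^ (k + 1) := ⟨_, rfl⟩
  have hU0 : 0 < U := by rw [hU]; positivity
  have hid : (D : ℝ) * (2 * k) ^ k / (2 * (k + 1) * D) ^ (k + 1) = D * κ * U := by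
    rw [hκ, hU, div_pow, mul_pow (k : ℝ) D, mul_pow (2 * ((k : ℝ) + 1)) D,
      mul_pow (2 : ℝ) ((k : ℝ) + 1), mul_pow (2 : ℝ) (((k : ℝ) + 1) ^ 2), ← pow_mul]
    have h1 : ((k : ℝ) + 1) ^ (2 * (k + 1)) = (k + 1) ^ (k + 1) * (k + 1) ^ (k + 1) := by
      rw [two_mul, pow_add]
    rw [h1]
    have hk1 : (0 : ℝ) < k + 1 := by positivity
    field_simp
  have hF := F₀ hk hD3
  rw [hid] at hF
  refine ⟨1 - 1 / D, 1 - 2 / D, by linarith, by linarith, by linarith, _, inferInstance, e₀ k D,
    pop₀ hk hD3, ?_, lt_of_lt_of_le (by positivity) hF, ?_⟩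
  · have h1 : Set.range (e₀ k D) ⊆ (({0, 1 - 2 / (D : ℝ), 1} : Finset ℝ) : Set ℝ) := by
      rintro _ ⟨i | i | i, rfl⟩ <;> simp [e₀]
    have h2 := Set.ncard_le_ncard h1 (Finset.finite_toSet _)
    rw [Set.ncard_coe_finset] at h2
    exact h2.trans Finset.card_le_three
  · intro κ' _ e' h1 h2
    have h3 := two_sizes hk hD3 h1 h2
    rw [← hU] at h3
    have h4 : 0 ≤ F (k + 1) (1 - 2 / D) e' := by unfold F; positivity
    have h5 : K * F (k + 1) (1 - 2 / D) e' ≤ |K| * U :=
      mul_le_mul (le_abs_self K) h3 h4 (abs_nonneg K)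
    have h6 : |K| * U < D * κ * U := mul_lt_mul_of_pos_right hDK hU0
    linarith

/-! ### One draw -/

theorem F_one {ι : Type} [Fintype ι] (c : ℝ) (e : ι → ℝ) :
    F 1 c e = ({i : ι | e i ≤ c}.ncard : ℝ) / Fintype.card ι := by
  unfold F
  rw [pow_one]
  congr 2
  have h : {i : Fin 1 → ι | ∑ j, e (i j) ≤ c} = (Equiv.funUnique (Fin 1) ι).symm '' {i : ι | e i ≤ c} := by
    ext i
    simp only [Set.mem_ofPred_eq, Set.mem_image]
    constructor
    · intro h
      refine ⟨i 0, by simpa using h, ?_⟩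
      funext j
      have : j = 0 := Subsingleton.elim _ _
      rw [this]
      rfl
    · rintro ⟨a, ha, rfl⟩
      simpa using ha
  rw [h, Set.ncard_image_of_injective _ (Equiv.injective _)]

theorem F_one_le {ι : Type} [Fintype ι] {m c : ℝ} (hc : c < 1) {e : ι → ℝ} (h : IsPop m e) :
    F 1 c e ≤ (1 - m) / (1 - c) := by
  classical
  rw [F_one]
  have hN : (0 : ℝ) < Fintype.card ι := by
    have := h.1
    exact_mod_cast Fintype.card_pos
  have h0 : {i : ι | e i ≤ c} = ((Finset.univ.filter fun i => e i ≤ c : Finset ι) : Set ι) := by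
    ext i; simp
  rw [h0, Set.ncard_coe_finset, div_le_div_iff₀ hN (by linarith)]
  have h9 : ∑ i ∈ Finset.univ.filter (fun i => e i ≤ c), (1 - c) ≤
      ∑ i ∈ Finset.univ.filter (fun i => e i ≤ c), (1 - e i) := by
    refine Finset.sum_le_sum fun i hi => ?_
    have := (Finset.mem_filter.1 hi).2
    linarith
  have h11 : ∑ i ∈ Finset.univ.filter (fun i => e i ≤ c), (1 - e i) ≤ ∑ i, (1 - e i) :=
    Finset.sum_le_sum_of_subset_of_nonneg (Finset.filter_subset _ _)
      fun i _ _ => by have := (h.2.1 i).2; linarith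
  rw [Finset.sum_const, nsmul_eq_mul] at h9
  rw [h.deficit] at h11
  linarith

/-- `a` items of size `u` and `b` items of size `v` -/
noncomputable def two (a b : ℕ) (u v : ℝ) : Fin a ⊕ Fin b → ℝ :=
  Sum.elim (fun _ => u) (fun _ => v)

theorem two_pop {a b : ℕ} (ha : 0 < a) {u v m : ℝ} (hu0 : 0 ≤ u) (hu1 : u ≤ 1)
    (hv0 : 0 ≤ v) (hv1 : v ≤ 1) (hm : a * u + b * v = m * (a + b)) : IsPop m (two a b u v) := by
  refine ⟨⟨Sum.inl ⟨0, ha⟩⟩, ?_, ?_⟩
  · rintro (i | i)
    · exact ⟨hu0, hu1⟩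
    · exact ⟨hv0, hv1⟩
  · unfold two
    rw [Fintype.sum_sum_type, Fintype.card_sum]
    simp only [Sum.elim_inl, Sum.elim_inr, Finset.sum_const, Finset.card_univ, Fintype.card_fin,
      nsmul_eq_mul]
    have : (0 : ℝ) < a := by exact_mod_cast ha
    push_cast
    rw [div_eq_iff (by positivity)]
    exact hm

theorem two_F {a b : ℕ} (ha : 0 < a) {u v c : ℝ} (hu : u ≤ c) :
    (a : ℝ) / (a + b) ≤ F 1 c (two a b u v) := by
  rw [F_one, Fintype.card_sum, Fintype.card_fin, Fintype.card_fin]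
  push_cast
  refine div_le_div_of_nonneg_right ?_ (by positivity)
  have h : Set.range (Sum.inl : Fin a → Fin a ⊕ Fin b) ⊆ {i | two a b u v i ≤ c} := by
    rintro _ ⟨i, rfl⟩
    exact hu
  have h2 := Set.ncard_le_ncard h (Set.toFinite _)
  rw [← Set.image_univ, Set.ncard_image_of_injective _ Sum.inl_injective, Set.ncard_univ,
    Nat.card_eq_fintype_card, Fintype.card_fin] at h2
  exact_mod_cast h2

theorem two_range {a b : ℕ} (ha : 0 < a) (hb : 0 < b) (u v : ℝ) :
    Set.range (two a b u v) = {u, v} := by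
  ext x
  constructor
  · rintro ⟨i | i, rfl⟩
    · exact Or.inl rfl
    · exact Or.inr rfl
  · rintro (rfl | rfl)
    · exact ⟨Sum.inl ⟨0, ha⟩, rfl⟩
    · exact ⟨Sum.inr ⟨0, hb⟩, rfl⟩

theorem rat_eq {q : ℚ} (h0 : 0 < q) (h1 : q < 1) : ∃ a b : ℕ, 0 < a ∧ 0 < b ∧
    (q : ℝ) = a / (a + b) := by
  have hn : 0 < q.num := Rat.num_pos.2 h0
  have hd : q.num < q.den := by
    have h2 : q.num < (q.den : ℤ) := by
      have h3 : (q.num : ℚ) / q.den < 1 := by rw [Rat.num_div_den]; exact h1
      rw [div_lt_one (by exact_mod_cast q.den_pos)] at h3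
      exact_mod_cast h3
    exact h2
  refine ⟨q.num.toNat, q.den - q.num.toNat, by omega, by omega, ?_⟩
  have e1 : ((q.num.toNat : ℕ) : ℝ) = (q.num : ℝ) := by
    have : ((q.num.toNat : ℕ) : ℤ) = q.num := Int.toNat_of_nonneg hn.le
    exact_mod_cast this
  have e3 : ((q.den - q.num.toNat : ℕ) : ℝ) = q.den - q.num := by
    rw [Nat.cast_sub (by omega), e1]
  rw [e3, e1]
  have e4 : (q : ℝ) = (q.num : ℝ) / q.den := by
    conv_lhs => rw [← Rat.num_div_den q]
    push_cast
    rfl
  rw [e4]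
  congr 1
  ring

theorem one_iff {m c : ℝ} (hm0 : 0 < m) (hm1 : m < 1) (hc : c < m) :
    Holds 1 m c ↔ c < 0 ∨ ∃ q : ℚ, (q : ℝ) = (1 - m) / (1 - c) := by
  have hc1 : 0 < 1 - c := by linarith
  constructor
  · rintro ⟨ι, _, e, hpop, -, -, hmax⟩
    rcases lt_or_ge c 0 with h0 | h0
    · exact Or.inl h0
    · right
      obtain ⟨q₀, hq₀⟩ : ∃ q₀ : ℚ, (q₀ : ℝ) = F 1 c e := by
        rw [F_one]
        exact ⟨({i : ι | e i ≤ c}.ncard : ℚ) / Fintype.card ι, by push_cast; rfl⟩
      refine ⟨q₀, le_antisymm (hq₀ ▸ F_one_le (by linarith) hpop) ?_⟩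
      by_contra hlt
      push Not at hlt
      obtain ⟨q, hq1, hq2⟩ := exists_rat_btwn hlt
      have hqq : (0 : ℝ) ≤ F 1 c e := by unfold F; positivity
      have hq0 : (0 : ℝ) < q := by linarith
      have hr1 : (1 - m) / (1 - c) < 1 := by rw [div_lt_one hc1]; linarith
      obtain ⟨a, b, ha, hb, hab⟩ := rat_eq (q := q) (by exact_mod_cast hq0)
        (by exact_mod_cast hq2.trans hr1)
      have ha' : (0 : ℝ) < a := by exact_mod_cast ha
      have hb' : (0 : ℝ) < b := by exact_mod_cast hb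
      rw [lt_div_iff₀ hc1] at hq2
      have h5 : (a : ℝ) * (1 - c) ≤ (1 - m) * (a + b) := by
        have h6 : (a : ℝ) = q * (a + b) := by rw [hab]; field_simp
        calc (a : ℝ) * (1 - c) = q * (1 - c) * (a + b) := by rw [← mul_right_comm, ← h6]
          _ ≤ (1 - m) * (a + b) := mul_le_mul_of_nonneg_right hq2.le (by positivity)
      have hpop2 : IsPop m (two a b c ((m * (a + b) - a * c) / b)) := by
        refine two_pop ha h0 (by linarith) ?_ ?_ ?_
        · apply div_nonneg _ hb'.le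
          nlinarith
        · rw [div_le_one hb']
          linarith
        · field_simp
          ring
      have h7 := hmax _ _ _ hpop2
      have h8 := two_F (b := b) ha (v := (m * (a + b) - a * c) / b) (le_refl c)
      rw [← hab] at h8
      linarith
  · rintro (h0 | ⟨q, hq⟩)
    · -- all probabilities are zero
      obtain ⟨b, hb⟩ := exists_nat_gt (m / (1 - m))
      have hb0 : (0 : ℝ) < b := lt_of_le_of_lt (div_nonneg hm0.le (by linarith)) hb
      rw [div_lt_iff₀ (by linarith)] at hb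
      have hb1 : 0 < b := by exact_mod_cast hb0
      have hv : 0 < m * (1 + b) / b := by positivity
      refine ⟨_, inferInstance, two 1 b 0 (m * (1 + b) / b), ?_, ?_, ?_, ?_⟩
      · refine two_pop one_pos le_rfl zero_le_one hv.le ?_ ?_
        · rw [div_le_one hb0]; linarith
        · push_cast
          field_simp
          ring
      · rw [two_range one_pos hb1, Set.ncard_pair hv.ne]
      · left; rw [two_range one_pos hb1]; exact Or.inl rfl
      · intro κ _ e' he'
        have h2 : F 1 c e' = 0 := by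
          rw [F_one]
          have : {i : κ | e' i ≤ c} = ∅ := by
            ext i
            simp only [Set.mem_ofPred_eq, Set.mem_empty_iff_false, iff_false, not_le]
            have := (he'.2.1 i).1
            linarith
          rw [this]; simp
        rw [h2]
        unfold F
        positivity
    · rcases lt_or_ge c 0 with h0 | h0
      · -- as before
        obtain ⟨b, hb⟩ := exists_nat_gt (m / (1 - m))
        have hb0 : (0 : ℝ) < b := lt_of_le_of_lt (div_nonneg hm0.le (by linarith)) hb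
        rw [div_lt_iff₀ (by linarith)] at hb
        have hb1 : 0 < b := by exact_mod_cast hb0
        have hv : 0 < m * (1 + b) / b := by positivity
        refine ⟨_, inferInstance, two 1 b 0 (m * (1 + b) / b), ?_, ?_, ?_, ?_⟩
        · refine two_pop one_pos le_rfl zero_le_one hv.le ?_ ?_
          · rw [div_le_one hb0]; linarith
          · push_cast
            field_simp
            ring
        · rw [two_range one_pos hb1, Set.ncard_pair hv.ne]
        · left; rw [two_range one_pos hb1]; exact Or.inl rfl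
        · intro κ _ e' he'
          have h2 : F 1 c e' = 0 := by
            rw [F_one]
            have : {i : κ | e' i ≤ c} = ∅ := by
              ext i
              simp only [Set.mem_ofPred_eq, Set.mem_empty_iff_false, iff_false, not_le]
              have := (he'.2.1 i).1
              linarith
            rw [this]; simp
          rw [h2]
          unfold F
          positivity
      · have hr0 : 0 < (1 - m) / (1 - c) := div_pos (by linarith) hc1
        have hr1 : (1 - m) / (1 - c) < 1 := by rw [div_lt_one hc1]; linarith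
        rw [← hq] at hr0 hr1
        obtain ⟨a, b, ha, hb, hab⟩ := rat_eq (q := q) (by exact_mod_cast hr0) (by exact_mod_cast hr1)
        have ha' : (0 : ℝ) < a := by exact_mod_cast ha
        have hb' : (0 : ℝ) < b := by exact_mod_cast hb
        refine ⟨_, inferInstance, two a b c 1, ?_, ?_, ?_, ?_⟩
        · refine two_pop ha h0 (by linarith) zero_le_one le_rfl ?_
          rw [hab, div_eq_div_iff (by positivity) hc1.ne'] at hq
          linarith
        · rw [two_range ha hb, Set.ncard_pair (by linarith)]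
        · right; rw [two_range ha hb]; exact Or.inr rfl
        · intro κ _ e' he'
          refine (F_one_le (by linarith) he').trans ?_
          rw [← hq, hab]
          exact two_F ha le_rfl

/-- **Theorem.** (1) For every `n ≥ 2` and every `K` there are `0 < c < m < 1` (so `c < n m`) and a
population `e` of mean error `m` with at most three error sizes such that `P(S ≤ c)` is positive and
more than `K` times as large for `e` as for every population of mean error `m` with at most two error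
sizes, whatever they are.
(2) So for every `n ≥ 2` the assertion of Q1 fails for some `m` and `c`.
(3) For `n = 1` the assertion of Q1 holds for `m` and `c` if and only if `c < 0` or
`(1 - m) / (1 - c)` is rational. -/
theorem result :
    (∀ n : ℕ, 2 ≤ n → ∀ K : ℝ, ∃ m c : ℝ, 0 < c ∧ c < m ∧ m < 1 ∧
      ∃ (ι : Type) (_ : Fintype ι) (e : ι → ℝ), IsPop m e ∧ (Set.range e).ncard ≤ 3 ∧ 0 < F n c e ∧
        ∀ (κ : Type) (_ : Fintype κ) (e' : κ → ℝ), IsPop m e' → (Set.range e').ncard ≤ 2 →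
          K * F n c e' < F n c e) ∧
    (∀ n : ℕ, 2 ≤ n → ∃ m c : ℝ, 0 < m ∧ m < 1 ∧ c < n * m ∧ ¬ Holds n m c) ∧
    (∀ m c : ℝ, 0 < m → m < 1 → c < m →
      (Holds 1 m c ↔ c < 0 ∨ ∃ q : ℚ, (q : ℝ) = (1 - m) / (1 - c))) := by
  refine ⟨fun n hn K => any_factor hn K, fun n hn => ?_, fun m c h0 h1 h2 => one_iff h0 h1 h2⟩
  obtain ⟨m, c, h1, h2, h3, ι, _, e, h4, h5, h6, h7⟩ := any_factor hn 1
  refine ⟨m, c, by linarith, h3, ?_, ?_⟩
  · have : (2 : ℝ) ≤ n := by exact_mod_cast hn
    nlinarith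
  · rintro ⟨κ, _, e', g1, g2, g3, g4⟩
    have g5 := h7 κ _ e' g1 g2.le
    have g6 := g4 ι _ e h4
    linarith

end Pool.Agent.Results.MP_c8004b_pr.AnyFactor
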